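import Pool.Agent.BCS.Stmts2
import Pool.Agent.Helper46_BCS.HMB

/-!
Squad BCS (MP_fb4904_gt), row TRJ: Jacobi's formula and the trace inequality.
-/

set_option autoImplicit false

noncomputable section

open scoped ContDiff Topology ComplexConjugate MatrixOrder Matrix.Norms.L2Operator
open Set MeasureTheory

namespace Pool.Agent.BCS.H60

open Pool.Agent.SecondKind (Coord pd inv christoffel ricci)
open Pool.Agent.BCS

variable {m : ℕ}

theorem trq_ineq {K S : Matrix (Fin m) (Fin m) ℝ} (hK : K.PosSemidef) (hS : S.transpose = S) :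
    (K * S).trace ^ 2 ≤ m * (K * S * (K * S)).trace := by
  obtain ⟨B, hB⟩ := CStarAlgebra.nonneg_iff_eq_star_mul_self.mp hK.nonneg
  rw [Matrix.star_eq_conjTranspose, Matrix.conjTranspose_eq_transpose_of_trivial] at hB
  obtain ⟨T, hT⟩ : ∃ T : Matrix (Fin m) (Fin m) ℝ, T = B * S * B.transpose := ⟨_, rfl⟩
  have h1 : (K * S).trace = T.trace := by
    rw [hB, hT, Matrix.mul_assoc, Matrix.trace_mul_comm]
  have h2 : (K * S * (K * S)).trace = (T * T).trace := by
    have e1 : K * S * (K * S) = B.transpose * (B * S * B.transpose * B * S) := by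
      rw [hB]
      simp only [Matrix.mul_assoc]
    have e2 : T * T = B * S * B.transpose * B * S * B.transpose := by
      rw [hT]
      simp only [Matrix.mul_assoc]
    rw [e1, e2, Matrix.trace_mul_comm]
  have h3 : ∀ i j, T j i = T i j := by
    intro i j
    have : T.transpose = T := by
      rw [hT, Matrix.transpose_mul, Matrix.transpose_mul, Matrix.transpose_transpose, hS,
        Matrix.mul_assoc]
    exact congrFun (congrFun this i) j
  have h4 : (T * T).trace = ∑ i, ∑ j, T i j ^ 2 := by
    rw [Matrix.trace]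
    refine Finset.sum_congr rfl fun i _ => ?_
    rw [Matrix.diag_apply, Matrix.mul_apply]
    refine Finset.sum_congr rfl fun j _ => ?_
    rw [h3 i j, sq]
  rw [h1, h2, h4]
  have h5 : T.trace ^ 2 ≤ m * ∑ i, T i i ^ 2 := by
    have := sq_sum_le_card_mul_sum_sq (s := (Finset.univ : Finset (Fin m))) (f := fun i => T i i)
    rw [Finset.card_univ, Fintype.card_fin] at this
    exact this
  refine h5.trans (mul_le_mul_of_nonneg_left ?_ (Nat.cast_nonneg _))
  refine Finset.sum_le_sum fun i _ => ?_
  exact Finset.single_le_sum (f := fun j => T i j ^ 2) (fun j _ => sq_nonneg _)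
    (Finset.mem_univ i)

theorem psd {h : ℂ → Coord m} (hh : FibM h) (z : ℂ) (t : Fin m → ℝ) :
    (Matrix.of (h z t)).PosSemidef := by
  refine Matrix.PosSemidef.of_dotProduct_mulVec_nonneg ?_ ?_
  · ext i j
    rw [Matrix.conjTranspose_apply, star_trivial]
    exact hh.symm z t j i
  · intro v
    by_cases hv : v = 0
    · rw [hv]
      simp
    · have h1 := hh.pos z t v hv
      refine h1.le.trans (le_of_eq ?_)
      rw [dotProduct]
      refine Finset.sum_congr rfl fun i _ => ?_
      rw [Matrix.mulVec, dotProduct, Finset.mul_sum]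
      refine Finset.sum_congr rfl fun j _ => ?_
      rw [Matrix.of_apply, Pi.star_apply, star_trivial]
      ring

theorem key {h : ℂ → Coord m} (hh : FibM h) (z v : ℂ) (t : Fin m → ℝ) :
    (fderiv ℝ (fun z => lvol h z t) z v) ^ 2 ≤
      m / 4 * trq (h z t) (fun i j => fderiv ℝ (fun z => h z t i j) z v) := by
  rw [H46.lvol_hasFDerivAt hh]
  obtain ⟨S, hS⟩ : ∃ S : Matrix (Fin m) (Fin m) ℝ,
    S = Matrix.of (fun i j => fderiv ℝ (fun z => h z t i j) z v) := ⟨_, rfl⟩
  have hST : S.transpose = S := by
    rw [hS]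
    ext i j
    rw [Matrix.transpose_apply, Matrix.of_apply, Matrix.of_apply]
    have : (fun z => h z t j i) = fun z => h z t i j := by
      funext z
      exact hh.symm z t j i
    rw [this]
  have h1 : ∑ i, ∑ j, (Matrix.of (h z t))⁻¹ i j * fderiv ℝ (fun z => h z t i j) z v =
      ((Matrix.of (h z t))⁻¹ * S).trace := by
    rw [Matrix.trace]
    refine Finset.sum_congr rfl fun i _ => ?_
    rw [Matrix.diag_apply, Matrix.mul_apply]
    refine Finset.sum_congr rfl fun j _ => ?_
    have : S j i = fderiv ℝ (fun z => h z t i j) z v := by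
      have h2 : S j i = S.transpose i j := rfl
      rw [h2, hST, hS, Matrix.of_apply]
    rw [this]
  have h2 := trq_ineq (psd hh z t).inv hST
  rw [h1]
  unfold trq
  rw [← hS]
  nlinarith [h2]

theorem trj : TrjStmt := by
  intro m h hh z t
  have h1 := key hh z 1 t
  have h2 := key hh z Complex.I t
  unfold grad2 dx dy
  rw [mul_add]
  exact add_le_add h1 h2

end Pool.Agent.BCS.H60
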